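import Mathlib

/-!
# A nonconvex left Bregman Chebyshev set

For `f x = ∑ exp (x i)`, a Legendre function on `ℝ ^ n` (`n ≥ 2`) with full domain which is not
supercoercive, the Bregman distance `D (x, y)` is, up to a constant, `∑ (p i - exp (y i) * log (p i))`
in the coordinates `p i = exp (x i)`, hence strictly convex in `p`. So the logarithmic image of a
compact segment is left Chebyshev; it is a curved arc, in particular not convex.
-/

set_option autoImplicit false

namespace Pool.Agent.Results.MP_bd7f44_an.NonconvexLeftChebyshev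

open Real Set Filter Topology
open scoped RealInnerProductSpace

variable {E : Type*} [NormedAddCommGroup E] [InnerProductSpace ℝ E] [CompleteSpace E]

/-- The effective domain of an extended real function. -/
def dom (f : E → EReal) : Set E := {x | f x ≠ ⊤}

/-- The set of subgradients of `f` at `x`. -/
def subdiff (f : E → EReal) (x : E) : Set E :=
  {v | f x ≠ ⊤ ∧ ∀ z, f x + ((⟪v, z - x⟫ : ℝ) : EReal) ≤ f z}

/-- The gradient of the real function `z ↦ (f z).toReal` at `y`. -/
noncomputable def grad (f : E → EReal) (y : E) : E := gradient (fun z => (f z).toReal) y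

/-- Legendre functions: proper, lower semicontinuous, convex, essentially smooth and essentially
strictly convex. -/
structure IsLegendre (f : E → EReal) : Prop where
  proper : (∀ x, f x ≠ ⊥) ∧ (dom f).Nonempty
  lsc : LowerSemicontinuous f
  convex : Convex ℝ {p : E × ℝ | f p.1 ≤ (p.2 : EReal)}
  int_nonempty : (interior (dom f)).Nonempty
  diff : ∀ x ∈ interior (dom f), DifferentiableAt ℝ (fun z => (f z).toReal) x
  steep : ∀ x ∈ frontier (dom f),
    Tendsto (fun z => ‖grad f z‖) (𝓝[interior (dom f)] x) atTop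
  ess_strict : ∀ S : Set E, Convex ℝ S → S ⊆ {x | (subdiff f x).Nonempty} →
    StrictConvexOn ℝ S (fun z => (f z).toReal)

/-- `f x / ‖x‖ → +∞` as `‖x‖ → ∞`. -/
def Supercoercive (f : E → EReal) : Prop :=
  ∀ M : ℝ, ∃ R : ℝ, ∀ x : E, R ≤ ‖x‖ → ((M * ‖x‖ : ℝ) : EReal) ≤ f x

/-- The Bregman distance `D (x, y) = f x - f y - ⟨∇ f y, x - y⟩` for `y` in the interior of the
domain, with value `⊤` if `x` is not in the domain of `f`. -/
noncomputable def bregman (f : E → EReal) (x y : E) : EReal :=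
  f x - (((f y).toReal + ⟪grad f y, x - y⟫ : ℝ) : EReal)

/-- `C` is left Chebyshev: every point `y` of the interior of the domain has exactly one minimiser
of `x ↦ D (x, y)` over `C`. -/
def LeftChebyshev (f : E → EReal) (C : Set E) : Prop :=
  ∀ y ∈ interior (dom f), ∃! x, x ∈ C ∧ ∀ z ∈ C, bregman f x y ≤ bregman f z y

section proof

variable {n : ℕ}

/-- The function `∑ exp (x i)`. -/
noncomputable def F (x : EuclideanSpace ℝ (Fin (n + 2))) : ℝ := ∑ i, Real.exp (x i)

theorem hasGradientAt_F (y : EuclideanSpace ℝ (Fin (n + 2))) :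
    HasGradientAt (F (n := n)) (WithLp.toLp 2 fun i => Real.exp (y i)) y := by
  rw [hasGradientAt_iff_hasFDerivAt]
  have h : ∀ i, HasFDerivAt (fun x : EuclideanSpace ℝ (Fin (n + 2)) => Real.exp (x i))
      (Real.exp (y i) • (EuclideanSpace.proj i : EuclideanSpace ℝ (Fin (n + 2)) →L[ℝ] ℝ)) y := by
    intro i
    exact ((EuclideanSpace.proj i : EuclideanSpace ℝ (Fin (n + 2)) →L[ℝ] ℝ).hasFDerivAt).exp
  have hs := HasFDerivAt.fun_sum (fun i (_ : i ∈ Finset.univ) => h i)
  refine hs.congr_fderiv ?_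
  ext v
  simp [PiLp.inner_apply, mul_comm]

theorem F_strictConvexOn : StrictConvexOn ℝ Set.univ (F (n := n)) := by
  refine ⟨convex_univ, ?_⟩
  intro x _ y _ hxy a b ha hb hab
  have hne : ∃ i, x i ≠ y i := by
    by_contra hcon
    push Not at hcon
    exact hxy (by ext i; exact hcon i)
  obtain ⟨i, hi⟩ := hne
  have key : ∀ j, Real.exp ((a • x + b • y) j) ≤ a * Real.exp (x j) + b * Real.exp (y j) := by
    intro j
    have := convexOn_exp.2 (Set.mem_univ (x j)) (Set.mem_univ (y j)) ha.le hb.le hab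
    simpa using this
  have keyi : Real.exp ((a • x + b • y) i) < a * Real.exp (x i) + b * Real.exp (y i) := by
    have := strictConvexOn_exp.2 (Set.mem_univ (x i)) (Set.mem_univ (y i)) hi ha hb hab
    simpa using this
  have h := Finset.sum_lt_sum (fun j (_ : j ∈ Finset.univ) => key j) ⟨i, Finset.mem_univ i, keyi⟩
  simp only [F, smul_eq_mul, Finset.mul_sum, ← Finset.sum_add_distrib]
  exact h

theorem F_continuous : Continuous (F (n := n)) := by
  unfold F
  fun_prop

/-- The extended real version of `F`. -/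
noncomputable def fF (x : EuclideanSpace ℝ (Fin (n + 2))) : EReal := ((F x : ℝ) : EReal)

theorem fF_toReal : (fun z : EuclideanSpace ℝ (Fin (n + 2)) => (fF z).toReal) = F := by
  funext z
  simp [fF]

theorem dom_fF : dom (fF (n := n)) = Set.univ := by
  ext x
  simp [dom, fF]

theorem grad_fF (y : EuclideanSpace ℝ (Fin (n + 2))) :
    grad fF y = WithLp.toLp 2 fun i => Real.exp (y i) := by
  unfold grad
  rw [fF_toReal]
  exact (hasGradientAt_F y).gradient

theorem isLegendre_fF : IsLegendre (fF (n := n)) where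
  proper := by
    refine ⟨fun x => by simp [fF], ?_⟩
    rw [dom_fF]
    exact Set.univ_nonempty
  lsc := by
    have : Continuous (fF (n := n)) := continuous_coe_real_ereal.comp F_continuous
    exact this.lowerSemicontinuous
  convex := by
    have h := (F_strictConvexOn (n := n)).convexOn.convex_epigraph
    convert h using 2
    ext p
    simp [fF]
  int_nonempty := by
    rw [dom_fF, interior_univ]
    exact Set.univ_nonempty
  diff := by
    intro x _
    rw [fF_toReal]
    exact (hasGradientAt_F x).hasFDerivAt.differentiableAt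
  steep := by
    intro x hx
    rw [dom_fF, frontier_univ] at hx
    exact absurd hx (Set.notMem_empty x)
  ess_strict := by
    intro S hS _
    rw [fF_toReal]
    exact F_strictConvexOn.subset (Set.subset_univ S) hS

theorem not_supercoercive_fF : ¬ Supercoercive (fF (n := n)) := by
  intro h
  obtain ⟨R, hR⟩ := h 1
  set r : ℝ := max R (n + 3) with hr
  have hr3 : (n : ℝ) + 3 ≤ r := le_max_right _ _
  have hn : (0 : ℝ) ≤ n := Nat.cast_nonneg n
  have hr0 : 0 < r := by linarith
  set x : EuclideanSpace ℝ (Fin (n + 2)) := WithLp.toLp 2 fun _ => -r with hx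
  have hxr : r ≤ ‖x‖ := by
    have h0 := PiLp.norm_apply_le x 0
    have : ‖x 0‖ = r := by simp [hx, abs_of_pos hr0]
    linarith
  have h1 := hR x (le_trans (le_max_left _ _) hxr)
  have h2 : F x ≤ n + 2 := by
    have : ∀ i ∈ (Finset.univ : Finset (Fin (n + 2))), Real.exp (x i) ≤ 1 := by
      intro i _
      rw [Real.exp_le_one_iff]
      simp [hx, hr0.le]
    have h3 := Finset.sum_le_card_nsmul _ _ _ this
    simpa [F] using h3
  unfold fF at h1
  rw [EReal.coe_le_coe_iff] at h1
  linarith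

/-- The velocity vector `(1, 2, 0, …, 0)`. -/
def cc (i : Fin (n + 2)) : ℝ := if i = 0 then 1 else if i = 1 then 2 else 0

theorem cc_nonneg (i : Fin (n + 2)) : 0 ≤ cc i := by
  unfold cc
  split_ifs <;> norm_num

theorem cc_zero : cc (0 : Fin (n + 2)) = 1 := by simp [cc]

theorem cc_one : cc (1 : Fin (n + 2)) = 2 := by simp [cc]

/-- The arc `t ↦ (log (1 + t), log (1 + 2 t), 0, …, 0)`. -/
noncomputable def curve (t : ℝ) : EuclideanSpace ℝ (Fin (n + 2)) :=
  WithLp.toLp 2 fun i => Real.log (1 + cc i * t)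

theorem pos_of {t : ℝ} (ht : t ∈ Set.Icc (0 : ℝ) 1) (i : Fin (n + 2)) : 0 < 1 + cc i * t := by
  have := mul_nonneg (cc_nonneg i) ht.1
  linarith

theorem curve_apply (t : ℝ) (i : Fin (n + 2)) : curve t i = Real.log (1 + cc i * t) := rfl

theorem continuousOn_curve : ContinuousOn (curve (n := n)) (Set.Icc 0 1) := by
  unfold curve
  refine (PiLp.continuous_toLp 2 _).comp_continuousOn ?_
  refine continuousOn_pi.2 fun i => ?_
  refine ContinuousOn.log (by fun_prop) ?_
  intro t ht
  exact (pos_of ht i).ne'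

/-- The Bregman distance, as a real number, along the arc. -/
noncomputable def gg (y : EuclideanSpace ℝ (Fin (n + 2))) (t : ℝ) : ℝ :=
  ∑ i, ((1 + cc i * t) - Real.exp (y i) * Real.log (1 + cc i * t)) +
    (∑ i, Real.exp (y i) * y i - F y)

theorem bregman_curve (y : EuclideanSpace ℝ (Fin (n + 2))) {t : ℝ} (ht : t ∈ Set.Icc (0 : ℝ) 1) :
    bregman fF (curve t) y = ((gg y t : ℝ) : EReal) := by
  unfold bregman
  rw [grad_fF]
  unfold fF
  rw [← EReal.coe_sub, EReal.coe_eq_coe_iff, EReal.toReal_coe]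
  have h1 : F (curve (n := n) t) = ∑ i : Fin (n + 2), (1 + cc i * t) := by
    unfold F
    refine Finset.sum_congr rfl fun i _ => ?_
    rw [curve_apply, Real.exp_log (pos_of ht i)]
  have h2 : ⟪(WithLp.toLp 2 fun i => Real.exp (y i) : EuclideanSpace ℝ (Fin (n + 2))),
      curve t - y⟫ = ∑ i, Real.exp (y i) * (Real.log (1 + cc i * t) - y i) := by
    rw [PiLp.inner_apply]
    refine Finset.sum_congr rfl fun i _ => ?_
    simp [curve_apply, mul_comm]
  rw [h1, h2]
  unfold gg
  simp only [mul_sub, Finset.sum_sub_distrib]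
  ring

theorem gg_midpoint (y : EuclideanSpace ℝ (Fin (n + 2))) {t s : ℝ} (ht : t ∈ Set.Icc (0 : ℝ) 1)
    (hs : s ∈ Set.Icc (0 : ℝ) 1) (hts : t ≠ s) :
    gg y (1 / 2 * t + 1 / 2 * s) < 1 / 2 * gg y t + 1 / 2 * gg y s := by
  have key : ∀ i, (1 + cc i * (1 / 2 * t + 1 / 2 * s)) -
      Real.exp (y i) * Real.log (1 + cc i * (1 / 2 * t + 1 / 2 * s)) ≤
      1 / 2 * ((1 + cc i * t) - Real.exp (y i) * Real.log (1 + cc i * t)) +
      1 / 2 * ((1 + cc i * s) - Real.exp (y i) * Real.log (1 + cc i * s)) := by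
    intro i
    have h := strictConcaveOn_log_Ioi.concaveOn.2 (Set.mem_Ioi.2 (pos_of ht i))
      (Set.mem_Ioi.2 (pos_of hs i)) (show (0 : ℝ) ≤ 1 / 2 by norm_num)
      (show (0 : ℝ) ≤ 1 / 2 by norm_num) (by norm_num)
    simp only [smul_eq_mul] at h
    have e : 1 / 2 * (1 + cc i * t) + 1 / 2 * (1 + cc i * s) =
      1 + cc i * (1 / 2 * t + 1 / 2 * s) := by ring
    rw [e] at h
    have := mul_le_mul_of_nonneg_left h (Real.exp_pos (y i)).le
    linarith
  have key0 : (1 + cc (0 : Fin (n + 2)) * (1 / 2 * t + 1 / 2 * s)) -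
      Real.exp (y 0) * Real.log (1 + cc (0 : Fin (n + 2)) * (1 / 2 * t + 1 / 2 * s)) <
      1 / 2 * ((1 + cc (0 : Fin (n + 2)) * t) -
        Real.exp (y 0) * Real.log (1 + cc (0 : Fin (n + 2)) * t)) +
      1 / 2 * ((1 + cc (0 : Fin (n + 2)) * s) -
        Real.exp (y 0) * Real.log (1 + cc (0 : Fin (n + 2)) * s)) := by
    have h := strictConcaveOn_log_Ioi.2 (Set.mem_Ioi.2 (pos_of ht (0 : Fin (n + 2))))
      (Set.mem_Ioi.2 (pos_of hs (0 : Fin (n + 2)))) (by rw [cc_zero]; intro h; apply hts; linarith)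
      (show (0 : ℝ) < 1 / 2 by norm_num) (show (0 : ℝ) < 1 / 2 by norm_num) (by norm_num)
    simp only [smul_eq_mul] at h
    have e : 1 / 2 * (1 + cc (0 : Fin (n + 2)) * t) + 1 / 2 * (1 + cc (0 : Fin (n + 2)) * s) =
      1 + cc (0 : Fin (n + 2)) * (1 / 2 * t + 1 / 2 * s) := by ring
    rw [e] at h
    have := mul_lt_mul_of_pos_left h (Real.exp_pos (y 0))
    linarith
  have h := Finset.sum_lt_sum (fun j (_ : j ∈ Finset.univ) => key j)
    ⟨0, Finset.mem_univ 0, key0⟩
  rw [Finset.sum_add_distrib, ← Finset.mul_sum, ← Finset.mul_sum] at h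
  unfold gg
  linarith

theorem gg_continuousOn (y : EuclideanSpace ℝ (Fin (n + 2))) :
    ContinuousOn (gg y) (Set.Icc 0 1) := by
  unfold gg
  refine ContinuousOn.add ?_ continuousOn_const
  refine continuousOn_finsetSum _ fun i _ => ?_
  refine ContinuousOn.sub (by fun_prop) (ContinuousOn.mul continuousOn_const ?_)
  refine ContinuousOn.log (by fun_prop) ?_
  intro t ht
  exact (pos_of ht i).ne'

theorem leftChebyshev_curve :
    LeftChebyshev (fF (n := n)) (curve '' Set.Icc (0 : ℝ) 1) := by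
  intro y _
  obtain ⟨t, ht, hmin⟩ := isCompact_Icc.exists_isMinOn
    (Set.nonempty_Icc.2 (zero_le_one' ℝ)) (gg_continuousOn y)
  refine ⟨curve t, ⟨⟨t, ht, rfl⟩, ?_⟩, ?_⟩
  · rintro _ ⟨s, hs, rfl⟩
    rw [bregman_curve y ht, bregman_curve y hs, EReal.coe_le_coe_iff]
    exact hmin hs
  · rintro _ ⟨⟨s, hs, rfl⟩, hs'⟩
    by_contra hne
    have hst : t ≠ s := fun h => hne (by rw [h])
    have h1 := hs' (curve t) ⟨t, ht, rfl⟩
    rw [bregman_curve y ht, bregman_curve y hs, EReal.coe_le_coe_iff] at h1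
    have h2 : gg y t ≤ gg y s := hmin hs
    have h3 := gg_midpoint y ht hs hst
    have h4 : (1 / 2 * t + 1 / 2 * s) ∈ Set.Icc (0 : ℝ) 1 :=
      ⟨by linarith [ht.1, hs.1], by linarith [ht.2, hs.2]⟩
    have h5 : gg y t ≤ gg y (1 / 2 * t + 1 / 2 * s) := hmin h4
    linarith

theorem not_convex_curve : ¬ Convex ℝ (curve (n := n) '' Set.Icc (0 : ℝ) 1) := by
  intro h
  have h0 : curve (n := n) 0 ∈ curve (n := n) '' Set.Icc (0 : ℝ) 1 := ⟨0, by simp, rfl⟩
  have h1 : curve (n := n) 1 ∈ curve (n := n) '' Set.Icc (0 : ℝ) 1 := ⟨1, by simp, rfl⟩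
  obtain ⟨t, ht, htt⟩ := h h0 h1 (show (0 : ℝ) ≤ 1 / 2 by norm_num)
    (show (0 : ℝ) ≤ 1 / 2 by norm_num) (by norm_num)
  have e0 := congrArg (fun v : EuclideanSpace ℝ (Fin (n + 2)) => v 0) htt
  have e1 := congrArg (fun v : EuclideanSpace ℝ (Fin (n + 2)) => v 1) htt
  have e0' : Real.log (1 + t) = 1 / 2 * Real.log 2 := by
    simpa [curve_apply, cc_zero, one_add_one_eq_two] using e0
  have e1' : Real.log (1 + 2 * t) = 1 / 2 * Real.log 3 := by
    have e3 : (1 : ℝ) + 2 = 3 := by norm_num
    simpa [curve_apply, cc_one, e3] using e1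
  have ht0 := ht.1
  have s0 : (1 + t) ^ 2 = 2 := by
    have : Real.log ((1 + t) ^ 2) = Real.log 2 := by
      rw [Real.log_pow, e0']; push_cast; ring
    exact Real.log_injOn_pos (Set.mem_Ioi.2 (by positivity)) (Set.mem_Ioi.2 (by norm_num)) this
  have s1 : (1 + 2 * t) ^ 2 = 3 := by
    have : Real.log ((1 + 2 * t) ^ 2) = Real.log 3 := by
      rw [Real.log_pow, e1']; push_cast; ring
    exact Real.log_injOn_pos (Set.mem_Ioi.2 (by positivity)) (Set.mem_Ioi.2 (by norm_num)) this
  have s2 : t = 1 / 2 := by linarith [s0, s1]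
  rw [s2] at s0
  norm_num at s0

end proof

/-- For every dimension `n ≥ 2` there are a Legendre function `f` on `ℝ ^ n` that is not
supercoercive and a compact left Chebyshev subset of the interior of its domain which is not
convex. -/
theorem result (n : ℕ) (hn : 2 ≤ n) :
    ∃ (f : EuclideanSpace ℝ (Fin n) → EReal) (C : Set (EuclideanSpace ℝ (Fin n))),
      IsLegendre f ∧ ¬ Supercoercive f ∧ C.Nonempty ∧ C ⊆ interior (dom f) ∧ IsCompact C ∧
        LeftChebyshev f C ∧ ¬ Convex ℝ C := by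
  obtain ⟨m, rfl⟩ : ∃ m, n = m + 2 := ⟨n - 2, by omega⟩
  refine ⟨fF, curve '' Set.Icc (0 : ℝ) 1, isLegendre_fF, not_supercoercive_fF, ?_, ?_, ?_,
    leftChebyshev_curve, not_convex_curve⟩
  · exact ⟨_, 0, by simp, rfl⟩
  · rw [dom_fF, interior_univ]
    exact Set.subset_univ _
  · exact isCompact_Icc.image_of_continuousOn continuousOn_curve

end Pool.Agent.Results.MP_bd7f44_an.NonconvexLeftChebyshev
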